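import Pool.Agent.R372.VG.TR

/-!
Project PK (helper431), part FIN (helper572): dimension at least one at finite level.
-/

set_option autoImplicit false

open scoped InnerProductSpace InnerProduct ENNReal

namespace Pool.Agent.N572.PK.FIN

open Pool.Agent.W649.ZL Pool.Agent.R684.PN Pool.Agent.R684.VG Pool.Agent.R372.VG.TR

/-- the trace formula at finite level -/
theorem trace {Γ G S : Type} [Group Γ] [Group G] [Fintype G] [Fintype S] (σ : S → Γ)
    (q : Γ →* G) (A : Set (List S)) :
    vd (UU σ q A) * (Fintype.card G : ℝ) = (Module.finrank ℂ (UU σ q A) : ℝ) := by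
  classical
  obtain ⟨hcl, hinv⟩ := Pool.Agent.R928.PNCLO.t_CLO Γ G S σ q A
  set U : Submodule ℂ (EE G S) := UU σ q A with hU
  haveI : CompleteSpace U := hcl.completeSpace_coe
  haveI : FiniteDimensional ℂ (EE G S) := fin_dim
  rw [← sum_proj U, vd_eq U U (topcl_eq hcl), Fintype.sum_prod_type]
  have h2 : ∀ (x : G) (s : S), ‖U.starProjection (dl (x, s))‖ ^ 2 =
      ‖U.starProjection (dl ((1 : G), s))‖ ^ 2 := by
    intro x s
    have e : (dl (x, s) : EE G S) = tr x⁻¹ (dl ((1 : G), s)) := by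
      rw [tr_dl, one_mul, inv_inv]
    rw [e, proj_tr hinv, norm_tr]
  simp only [h2]
  rw [Finset.sum_const, Finset.card_univ, nsmul_eq_mul, mul_comm]

theorem t_FIN : S_FIN := by
  classical
  intro Γ G S _ _ _ _ σ q s₁ s₂ hs L₀ hE
  haveI := Fintype.ofFinite G
  haveI : FiniteDimensional ℂ (EE G S) := fin_dim
  have htr := trace σ q {L₀}
  let evp : UU σ q ∅ →ₗ[ℂ] (G → ℂ) × (G → ℂ) :=
    { toFun := fun f => (fun x => f.1 (x, s₁), fun x => f.1 (x, s₂))
      map_add' := fun f g => rfl
      map_smul' := fun a f => rfl }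
  have hsurj : Function.Surjective evp := by
    rintro ⟨e₁, e₂⟩
    obtain ⟨c, hc, h1, h2⟩ := hE e₁ e₂
    have hcZ : c ∈ ZZ q := hc
    refine ⟨ev σ q ⟨c, hcZ⟩, ?_⟩
    apply Prod.ext
    · funext x
      show (ev σ q ⟨c, hcZ⟩).1 (x, s₁) = e₁ x
      rw [ev_apply]
      exact congrFun h1 x
    · funext x
      show (ev σ q ⟨c, hcZ⟩).1 (x, s₂) = e₂ x
      rw [ev_apply]
      exact congrFun h2 x
  let lam : UU σ q ∅ →ₗ[ℂ] (G → ℂ) :=
    { toFun := fun f x => DD (fun s => q (σ s)) L₀ f.1 x
      map_add' := fun f g => by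
        funext x
        exact DD_add (fun s => q (σ s)) L₀ (f.1 : G × S → ℂ) (g.1 : G × S → ℂ) x
      map_smul' := fun a f => by
        funext x
        exact DD_smul (fun s => q (σ s)) L₀ a (f.1 : G × S → ℂ) x }
  have hmem : ∀ f : LinearMap.ker lam, (f.1.1 : EE G S) ∈ UU σ q {L₀} := by
    intro f
    have hf := (mem_UU σ q ∅ f.1.1).1 f.1.2
    have hk : lam f.1 = 0 := f.2
    rw [mem_UU]
    refine ⟨hf.1, fun L hL x => ?_⟩
    rw [Set.mem_singleton_iff] at hL
    rw [hL]
    exact congrFun hk x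
  let emb : LinearMap.ker lam →ₗ[ℂ] UU σ q {L₀} :=
    { toFun := fun f => ⟨f.1.1, hmem f⟩
      map_add' := fun f g => rfl
      map_smul' := fun a f => rfl }
  have hinj : Function.Injective emb := by
    intro f g h
    have h1 : ((emb f).1 : EE G S) = (emb g).1 := by rw [h]
    change (f.1.1 : EE G S) = g.1.1 at h1
    exact Subtype.ext (Subtype.ext h1)
  have d1 := LinearMap.finrank_range_add_finrank_ker evp
  rw [LinearMap.range_eq_top.2 hsurj, finrank_top, Module.finrank_prod,
    Module.finrank_fintype_fun_eq_card] at d1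
  have d2 := LinearMap.finrank_range_add_finrank_ker lam
  have d3 : Module.finrank ℂ (LinearMap.range lam) ≤ Fintype.card G := by
    have := Submodule.finrank_le (LinearMap.range lam)
    rwa [Module.finrank_fintype_fun_eq_card] at this
  have d4 := LinearMap.finrank_le_finrank_of_injective hinj
  have d5 : Fintype.card G ≤ Module.finrank ℂ (UU σ q {L₀}) := by omega
  have hG : (0 : ℝ) < Fintype.card G := by exact_mod_cast Fintype.card_pos
  have d6 : (Fintype.card G : ℝ) ≤ (Module.finrank ℂ (UU σ q {L₀}) : ℝ) := by exact_mod_cast d5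
  rw [← htr] at d6
  by_contra hcon
  push Not at hcon
  have : vd (UU σ q {L₀}) * (Fintype.card G : ℝ) < 1 * Fintype.card G :=
    mul_lt_mul_of_pos_right hcon hG
  linarith

end Pool.Agent.N572.PK.FIN
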